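import Pool.Agent.W4.QD.Stms4
import Pool.Agent.W928.QD.BIGG
import Pool.Agent.H510R2.Div

/-!
Project QD (helper4): property (B) for products of irreducible forms of degree at least three.
-/

set_option autoImplicit false

namespace Pool.Agent.W54.QD

open NumberField Finset Polynomial Pool.Agent.W4.CF Pool.Agent.W4.VC Pool.Agent.W4.QD

theorem hom_dvd (hH : S_HOM) (A B : ℤ[X]) (m : ℕ) (hAB : A ∣ B) (hB : B ≠ 0)
    (hm : B.natDegree ≤ m) (a b : ℤ) : hom A A.natDegree a b ∣ hom B m a b := by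
  obtain ⟨Q, rfl⟩ := hAB
  have hA0 : A ≠ 0 := left_ne_zero_of_mul hB
  have hQ0 : Q ≠ 0 := right_ne_zero_of_mul hB
  rw [natDegree_mul hA0 hQ0] at hm
  have e : m = A.natDegree + (m - A.natDegree) := by omega
  rw [e, hH.1 A Q A.natDegree (m - A.natDegree) le_rfl (by omega)]
  exact Dvd.intro _ rfl

theorem arith (H R c z k : ℕ) (hk : 2 ≤ k) (hz : 1 ≤ z) (h : H * R = c * z ^ k)
    (hcz : Nat.Coprime z c) (hHR : Nat.Coprime (Nat.gcd z H) R) :
    ∃ e, e ∣ c ∧ H = e * (Nat.gcd z H) ^ k ∧ Nat.Coprime (Nat.gcd z H) e := by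
  obtain ⟨w, hw⟩ : ∃ w, w = Nat.gcd z H := ⟨_, rfl⟩
  rw [← hw] at hHR ⊢
  have hwz : w ∣ z := hw ▸ Nat.gcd_dvd_left z H
  obtain ⟨w', hw'⟩ := hwz
  have hw0 : 0 < w := by
    rcases Nat.eq_zero_or_pos w with h0 | h0
    · rw [h0, zero_mul] at hw'
      omega
    · exact h0
  have h1 : w ^ k ∣ H * R := by
    rw [h, hw', mul_pow]
    exact ⟨c * w' ^ k, by ring⟩
  have h2 : w ^ k ∣ H := (Nat.Coprime.pow_left k hHR).dvd_of_dvd_mul_right h1
  obtain ⟨e, he⟩ := h2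
  have h3 : e * R = c * w' ^ k := by
    apply Nat.eq_of_mul_eq_mul_left (pow_pos hw0 k)
    calc w ^ k * (e * R) = (w ^ k * e) * R := by ring
      _ = c * z ^ k := by rw [← he]; exact h
      _ = w ^ k * (c * w' ^ k) := by rw [hw', mul_pow]; ring
  have hk1 : k = (k - 1) + 1 := by omega
  have h4 : Nat.Coprime w' (w ^ (k - 1) * e) := by
    have h5 : Nat.gcd (w * w') (w * (w ^ (k - 1) * e)) = w * Nat.gcd w' (w ^ (k - 1) * e) :=
      Nat.gcd_mul_left _ _ _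
    have h6 : w * (w ^ (k - 1) * e) = H := by
      rw [he]
      conv_rhs => rw [hk1]
      rw [pow_succ]
      ring
    rw [h6, ← hw', ← hw] at h5
    have h7 : w * 1 = w * Nat.gcd w' (w ^ (k - 1) * e) := by rw [mul_one]; exact h5
    exact (Nat.eq_of_mul_eq_mul_left hw0 h7).symm
  have h5 : Nat.Coprime w' e := h4.coprime_mul_left_right
  have h6 : e ∣ c := (Nat.Coprime.pow_right k h5.symm).dvd_of_dvd_mul_right ⟨R, h3.symm⟩
  refine ⟨e, h6, by rw [he]; ring, ?_⟩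
  exact (hcz.coprime_dvd_left ⟨w', hw'⟩).coprime_dvd_right h6

theorem single (hB : S_BG) (hN : Pool.Agent.W4.QD.S_NRM) (g : ℤ[X]) (hd : 3 ≤ g.natDegree)
    (hirr : Irreducible (g.map (Int.castRingHom ℚ))) :
    ∃ i : ℕ, 1 ≤ i ∧ HF g g.natDegree (1 / (g.natDegree : ℝ)) i := by
  classical
  obtain ⟨K, _, _, θ, hGen, hfin, hNF⟩ :=
    Pool.Agent.W928.QD.exists_theta hN g g.natDegree (by omega) hirr rfl
  obtain ⟨i, hi, hHBG⟩ := hB K θ hGen (by rw [hfin]; exact hd)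
  have hg0 : g ≠ 0 := by
    rintro rfl
    rw [natDegree_zero] at hd
    omega
  have ha0' : g.leadingCoeff ≠ 0 := leadingCoeff_ne_zero.2 hg0
  obtain ⟨a0, ha0def⟩ : ∃ a0 : ℤ, a0 = g.leadingCoeff := ⟨_, rfl⟩
  rw [← ha0def] at hNF ha0'
  obtain ⟨A, hAdef⟩ : ∃ A : ℕ, A = a0.natAbs := ⟨_, rfl⟩
  have hA : 1 ≤ A := by
    rw [hAdef]
    exact Int.natAbs_pos.2 ha0'
  have hAR : (1 : ℝ) ≤ A := by exact_mod_cast hA
  have hA0 : (0 : ℝ) < A := by linarith
  obtain ⟨d, hddef⟩ : ∃ d : ℕ, d = g.natDegree := ⟨_, rfl⟩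
  rw [← hddef] at hd hfin hNF ⊢
  refine ⟨i * A, Nat.mul_pos hi hA, ?_⟩
  intro k ε hk hε
  obtain ⟨C, hC, hcount⟩ := hHBG k ε hk hε
  rw [hfin] at hcount
  refine ⟨C * ((A : ℝ) ^ d) ^ ε, by positivity, ?_⟩
  intro Y Z hY hZ c hc s hs
  have hY0 : 0 < Y := by linarith
  have hinj : Set.InjOn (fun p : ℤ × ℤ => (a0 * p.1, p.2)) s := by
    intro p _ q _ hpq
    simp only [Prod.mk.injEq] at hpq
    exact Prod.ext (mul_left_cancel₀ ha0' hpq.1) hpq.2
  have hAY : 1 ≤ A * Y := one_le_mul_of_one_le_of_one_le hAR hY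
  have habs : |(a0 : ℝ)| = A := by
    rw [hAdef, Nat.cast_natAbs, Int.cast_abs]
  have h1 := hcount (A * Y) Z hAY hZ (A ^ (d - 1) * c) (Nat.mul_pos (pow_pos hA _) hc)
    (s.image (fun p : ℤ × ℤ => (a0 * p.1, p.2))) (by
      intro q hq
      obtain ⟨p, hp, rfl⟩ := Finset.mem_image.1 hq
      obtain ⟨hcop, hu, hv, z, hz1, hz2, hz3, hz4⟩ := hs p hp
      have hzc : Nat.Coprime z c := hz3.coprime_mul_left_right
      have hziA : Nat.Coprime z (i * A) := hz3.coprime_mul_right_right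
      have hzi : Nat.Coprime z i := hziA.coprime_mul_right_right
      have hzA : Nat.Coprime z A := hziA.coprime_mul_left_right
      refine ⟨?_, ?_, z, hz1, hz2, ?_, ?_, ?_⟩
      · push_cast
        rw [abs_mul, habs]
        exact mul_le_mul_of_nonneg_left hu hA0.le
      · exact hv.trans (le_mul_of_one_le_left hY0.le hAR)
      · exact Nat.Coprime.mul_right hzi (Nat.Coprime.mul_right (Nat.Coprime.pow_right _ hzA) hzc)
      · intro l hl hlz
        rintro ⟨g1, g2⟩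
        have hlp : Prime (l : ℤ) := Nat.prime_iff_prime_int.1 hl
        have hlA : ¬ l ∣ A := fun h => by
          have h3 := Nat.dvd_gcd hlz h
          rw [hzA.gcd_eq_one] at h3
          exact hl.one_lt.ne' (Nat.dvd_one.1 h3)
        rcases hlp.dvd_or_dvd g1 with g3 | g3
        · apply hlA
          rw [hAdef]
          exact Int.natCast_dvd.1 g3
        · exact hlp.not_isUnit (hcop.isUnit_of_dvd' g3 g2)
      · show (NF θ (a0 * p.1) p.2).natAbs = A ^ (d - 1) * c * z ^ k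
        rw [hNF, Int.natAbs_mul, Int.natAbs_pow, hz4, ← hAdef]
        ring)
  rw [Finset.card_image_of_injOn hinj] at h1
  refine h1.trans (le_of_eq ?_)
  have hd1 : d = (d - 1) + 1 := by omega
  have e1 : (A : ℝ) * Y * ((A ^ (d - 1) * c : ℕ) : ℝ) = (A : ℝ) ^ d * (Y * c) := by
    conv_rhs => rw [hd1]
    push_cast
    ring
  rw [e1, Real.mul_rpow (by positivity) (by positivity)]
  ring

theorem t_HF (hB : S_BG) (hN : Pool.Agent.W4.QD.S_NRM) (hH : Pool.Agent.W4.VC.S_HOM)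
    (hR : Pool.Agent.W4.VC.S_RES) : S_HF := by
  classical
  intro r g h n hr hg hsq
  obtain ⟨F, hF⟩ : ∃ F : ℤ[X], F = (∏ j, g j) * h := ⟨_, rfl⟩
  rw [← hF] at hsq ⊢
  have hF0 : F ≠ 0 := by
    intro h0
    have h1 := hsq.1
    rw [h0, Polynomial.map_zero] at h1
    exact not_squarefree_zero h1
  have hstruct : ∀ j, ∃ (i : ℕ) (Q : ℤ[X]) (M : ℕ), 1 ≤ i ∧
      HF (g j) (g j).natDegree (1 / ((g j).natDegree : ℝ)) i ∧ F = g j * Q ∧
      (∀ j', j' ≠ j → g j' ∣ Q) ∧ (g j).natDegree ≤ n ∧ Q ≠ 0 ∧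
      Q.natDegree ≤ n - (g j).natDegree ∧ 1 ≤ M ∧
      (∀ a b : ℤ, IsCoprime a b → ∀ p : ℕ, p.Prime → (p : ℤ) ∣ hom (g j) (g j).natDegree a b →
        (p : ℤ) ∣ hom Q (n - (g j).natDegree) a b → p ∣ M) := by
    intro j
    obtain ⟨i, hi, hHF⟩ := single hB hN (g j) (hg j).2 (hg j).1
    have hFQ : F = g j * ((∏ j' ∈ univ.erase j, g j') * h) := by
      rw [hF, ← mul_assoc, mul_prod_erase univ g (mem_univ j)]
    have hne := hF0
    rw [hFQ] at hne
    have hgj0 : g j ≠ 0 := left_ne_zero_of_mul hne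
    have hQ0 : (∏ j' ∈ univ.erase j, g j') * h ≠ 0 := right_ne_zero_of_mul hne
    have hdeg : (g j).natDegree + ((∏ j' ∈ univ.erase j, g j') * h).natDegree ≤ n := by
      rw [← natDegree_mul hgj0 hQ0, ← hFQ]
      exact hsq.2.1
    have hnj : n = (g j).natDegree + (n - (g j).natDegree) := by omega
    have hsq' : Sqf (g j * ((∏ j' ∈ univ.erase j, g j') * h))
        ((g j).natDegree + (n - (g j).natDegree)) := by
      rw [← hFQ, ← hnj]
      exact hsq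
    obtain ⟨-, -, M, hM, hM2⟩ := hR (g j) ((∏ j' ∈ univ.erase j, g j') * h) (g j).natDegree
      (n - (g j).natDegree) le_rfl (by omega) hsq'
    refine ⟨i, (∏ j' ∈ univ.erase j, g j') * h, M, hi, hHF, hFQ, ?_, by omega, hQ0, by omega,
      hM, hM2⟩
    intro j' hj'
    exact Dvd.dvd.mul_right (dvd_prod_of_mem g (mem_erase.2 ⟨hj', mem_univ j'⟩)) h
  choose i Q M hi hHF hFQ hgQ hgn hQ0 hQn hM hM2 using hstruct
  refine ⟨∏ j, (i j * M j), Nat.succ_le_of_lt (prod_pos fun j _ => Nat.mul_pos (hi j) (hM j)), ?_⟩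
  intro k ε hk hε
  have hC : ∀ j, ∃ C : ℝ, 0 < C ∧ ∀ Y Z : ℝ, 1 ≤ Y → 1 ≤ Z → ∀ c : ℕ, 1 ≤ c →
      ∀ s : Finset (ℤ × ℤ), (∀ p ∈ s, IsCoprime p.1 p.2 ∧ |(p.1 : ℝ)| ≤ Y ∧ |(p.2 : ℝ)| ≤ Y ∧
      ∃ z : ℕ, 1 ≤ z ∧ (z : ℝ) ≤ Z ∧ Nat.Coprime z (i j * c) ∧
        (hom (g j) (g j).natDegree p.1 p.2).natAbs = c * z ^ k) →
    (s.card : ℝ) ≤ C * (Y * c) ^ (ε / 2) * Z ^ (1 / ((g j).natDegree : ℝ)) :=
    fun j => hHF j k (ε / 2) hk (by positivity)
  choose C hC0 hcnt using hC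
  obtain ⟨Cd, hCd0, hdiv⟩ := Pool.Agent.H510R2.divisor_bound (ε / 2) (by positivity)
  have hCsum : 0 ≤ ∑ j, C j := sum_nonneg fun j _ => (hC0 j).le
  refine ⟨(∑ j, C j + 1) * Cd, by positivity, ?_⟩
  intro Y Z hY hZ c hc s hs
  have hY0 : 0 < Y := by linarith
  have hZ0 : 0 < Z := by linarith
  have hc0 : (1 : ℝ) ≤ c := by exact_mod_cast hc
  have hdj : ∀ j, (0 : ℝ) < ((g j).natDegree : ℝ) := by
    intro j
    have := (hg j).2
    exact_mod_cast (by omega : 0 < (g j).natDegree)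
  have hne : (univ : Finset (Fin r)).Nonempty := ⟨⟨0, by omega⟩, mem_univ _⟩
  obtain ⟨D, hD⟩ : ∃ D : ℝ, D = ((∑ j, (g j).natDegree : ℕ) : ℝ) := ⟨_, rfl⟩
  have hDs : D = ∑ j, ((g j).natDegree : ℝ) := by rw [hD]; push_cast; rfl
  have hD0 : 0 < D := by
    rw [hDs]
    exact sum_pos (fun j _ => hdj j) hne
  rw [← hD]
  obtain ⟨t, ht⟩ : ∃ t : Fin r × ℕ → Finset (ℤ × ℤ), ∀ q, t q = s.filter (fun p => ∃ z : ℕ,
      1 ≤ z ∧ (z : ℝ) ≤ Z ^ (((g q.1).natDegree : ℝ) / D) ∧ Nat.Coprime z (i q.1 * q.2) ∧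
      (hom (g q.1) (g q.1).natDegree p.1 p.2).natAbs = q.2 * z ^ k) := ⟨_, fun q => rfl⟩
  have hsub : s ⊆ ((univ : Finset (Fin r)) ×ˢ c.divisors).biUnion t := by
    intro p hp
    obtain ⟨hcop, hu, hv, z, hz1, hz2, hz3, hz4⟩ := hs p hp
    have hzc : Nat.Coprime z c := hz3.coprime_mul_left_right
    have hzI : Nat.Coprime z (∏ j, (i j * M j)) := hz3.coprime_mul_right_right
    have hziM : ∀ j, Nat.Coprime z (i j * M j) := fun j =>
      hzI.coprime_dvd_right (dvd_prod_of_mem (fun j => i j * M j) (mem_univ j))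
    have hzi : ∀ j, Nat.Coprime z (i j) := fun j => (hziM j).coprime_mul_right_right
    have hzM : ∀ j, Nat.Coprime z (M j) := fun j => (hziM j).coprime_mul_left_right
    obtain ⟨H, hHdef⟩ : ∃ H : Fin r → ℕ, ∀ j, H j = (hom (g j) (g j).natDegree p.1 p.2).natAbs :=
      ⟨_, fun j => rfl⟩
    obtain ⟨R, hRdef⟩ : ∃ R : Fin r → ℕ, ∀ j, R j =
      (hom (Q j) (n - (g j).natDegree) p.1 p.2).natAbs := ⟨_, fun j => rfl⟩
    have hHR : ∀ j, H j * R j = c * z ^ k := by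
      intro j
      rw [hHdef, hRdef, ← Int.natAbs_mul, ← hH.1 (g j) (Q j) (g j).natDegree
        (n - (g j).natDegree) le_rfl (hQn j), ← hFQ j, ← hz4]
      congr 2
      have := hgn j
      omega
    have hzR : ∀ j, Nat.Coprime (Nat.gcd z (H j)) (R j) := by
      intro j
      refine Nat.coprime_of_dvd ?_
      intro q hq hq1 hq2
      have h1 : q ∣ z := hq1.trans (Nat.gcd_dvd_left _ _)
      have h2 : q ∣ H j := hq1.trans (Nat.gcd_dvd_right _ _)
      rw [hHdef] at h2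
      rw [hRdef] at hq2
      have h3 : q ∣ M j := hM2 j p.1 p.2 hcop q hq (Int.natCast_dvd.2 h2) (Int.natCast_dvd.2 hq2)
      have h4 := Nat.dvd_gcd h1 h3
      rw [(hzM j).gcd_eq_one] at h4
      exact hq.one_lt.ne' (Nat.dvd_one.1 h4)
    have hHRd : ∀ j j', j' ≠ j → H j' ∣ R j := by
      intro j j' hj'
      rw [hHdef, hRdef]
      exact Int.natAbs_dvd_natAbs.2 (hom_dvd hH (g j') (Q j) _ (hgQ j j' hj') (hQ0 j) (hQn j) _ _)
    have hprod : ∏ j, Nat.gcd z (H j) ∣ z := by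
      apply Finset.prod_dvd_of_isRelPrime
      · intro j _ j' _ hjj'
        show IsRelPrime (Nat.gcd z (H j)) (Nat.gcd z (H j'))
        rw [← Nat.coprime_iff_isRelPrime]
        exact (hzR j).coprime_dvd_right
          ((Nat.gcd_dvd_right _ _).trans (hHRd j j' (Ne.symm hjj')))
      · intro j _
        exact Nat.gcd_dvd_left _ _
    have hprodle : ((∏ j, Nat.gcd z (H j) : ℕ) : ℝ) ≤ Z := by
      have h1 := Nat.le_of_dvd (by omega) hprod
      exact (by exact_mod_cast h1 : ((∏ j, Nat.gcd z (H j) : ℕ) : ℝ) ≤ (z : ℝ)).trans hz2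
    obtain ⟨j, hj⟩ : ∃ j, ((Nat.gcd z (H j) : ℕ) : ℝ) ≤ Z ^ (((g j).natDegree : ℝ) / D) := by
      by_contra hcon
      push Not at hcon
      have h1 : ∏ j, Z ^ (((g j).natDegree : ℝ) / D) < ∏ j, ((Nat.gcd z (H j) : ℕ) : ℝ) :=
        prod_lt_prod_of_nonempty (fun j _ => Real.rpow_pos_of_pos hZ0 _) (fun j _ => hcon j) hne
      rw [← Real.rpow_sum_of_pos hZ0, ← sum_div, ← hDs, div_self hD0.ne', Real.rpow_one] at h1
      push_cast at hprodle
      linarith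
    obtain ⟨e, he1, he2, he3⟩ := arith (H j) (R j) c z k hk hz1 (hHR j) hzc (hzR j)
    rw [mem_biUnion]
    refine ⟨(j, e), mem_product.2 ⟨mem_univ _, Nat.mem_divisors.2 ⟨he1, by omega⟩⟩, ?_⟩
    rw [ht]
    refine mem_filter.2 ⟨hp, Nat.gcd z (H j), Nat.gcd_pos_of_pos_left _ (by omega), hj, ?_, ?_⟩
    · exact Nat.Coprime.mul_right ((hzi j).coprime_dvd_left (Nat.gcd_dvd_left _ _)) he3
    · rw [← hHdef]
      exact he2
  have htc : ∀ q ∈ (univ : Finset (Fin r)) ×ˢ c.divisors,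
      ((t q).card : ℝ) ≤ C q.1 * ((Y * c) ^ (ε / 2) * Z ^ (1 / D)) := by
    rintro ⟨j, e⟩ hq
    have he := Nat.mem_divisors.1 (mem_product.1 hq).2
    have he1 : 1 ≤ e := Nat.pos_of_dvd_of_pos he.1 hc
    have hec : (e : ℝ) ≤ c := by exact_mod_cast Nat.le_of_dvd hc he.1
    have he0 : (1 : ℝ) ≤ e := by exact_mod_cast he1
    have h1 := hcnt j Y (Z ^ (((g j).natDegree : ℝ) / D)) hY
      (Real.one_le_rpow hZ (div_nonneg (hdj j).le hD0.le)) e he1 (t (j, e)) (by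
        intro p hp
        rw [ht] at hp
        obtain ⟨hps, z, hz1, hz2, hz3, hz4⟩ := mem_filter.1 hp
        obtain ⟨hcop, hu, hv, -⟩ := hs p hps
        exact ⟨hcop, hu, hv, z, hz1, hz2, hz3, hz4⟩)
    refine h1.trans ?_
    have h2 : (Z ^ (((g j).natDegree : ℝ) / D)) ^ (1 / ((g j).natDegree : ℝ)) = Z ^ (1 / D) := by
      rw [← Real.rpow_mul hZ0.le]
      congr 1
      have := (hdj j).ne'
      field_simp
    rw [h2, mul_assoc]
    have h3 : (Y * e) ^ (ε / 2) ≤ (Y * c) ^ (ε / 2) :=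
      Real.rpow_le_rpow (by positivity) (mul_le_mul_of_nonneg_left hec hY0.le) (by positivity)
    exact mul_le_mul_of_nonneg_left (mul_le_mul_of_nonneg_right h3 (by positivity)) (hC0 j).le
  have hcard : (s.card : ℝ) ≤ ∑ q ∈ (univ : Finset (Fin r)) ×ˢ c.divisors, ((t q).card : ℝ) := by
    have := (Finset.card_le_card hsub).trans Finset.card_biUnion_le
    exact_mod_cast this
  have hsum : ∑ q ∈ (univ : Finset (Fin r)) ×ˢ c.divisors, ((t q).card : ℝ) ≤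
      (∑ j, C j) * (c.divisors.card : ℝ) * ((Y * c) ^ (ε / 2) * Z ^ (1 / D)) := by
    refine (sum_le_sum htc).trans (le_of_eq ?_)
    rw [← sum_mul, sum_product]
    congr 1
    rw [sum_mul]
    refine sum_congr rfl (fun j _ => ?_)
    show ∑ _y ∈ c.divisors, C j = C j * (c.divisors.card : ℝ)
    rw [sum_const, nsmul_eq_mul]
    ring
  refine (hcard.trans hsum).trans ?_
  have h5 := hdiv c hc
  have h6 : (c : ℝ) ^ (ε / 2) ≤ (Y * c) ^ (ε / 2) :=
    Real.rpow_le_rpow (by positivity) (le_mul_of_one_le_left (by positivity) hY) (by positivity)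
  have h7 : (Y * c) ^ (ε / 2) * (Y * c) ^ (ε / 2) = (Y * c) ^ ε := by
    rw [← Real.rpow_add (by positivity)]
    congr 1
    ring
  calc (∑ j, C j) * (c.divisors.card : ℝ) * ((Y * c) ^ (ε / 2) * Z ^ (1 / D))
      ≤ (∑ j, C j + 1) * (Cd * (Y * c) ^ (ε / 2)) * ((Y * c) ^ (ε / 2) * Z ^ (1 / D)) := by
        apply mul_le_mul_of_nonneg_right _ (by positivity)
        apply mul_le_mul (by linarith) _ (by positivity) (by positivity)
        exact h5.trans (mul_le_mul_of_nonneg_left h6 hCd0.le)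
    _ = (∑ j, C j + 1) * Cd * ((Y * c) ^ (ε / 2) * (Y * c) ^ (ε / 2)) * Z ^ (1 / D) := by ring
    _ = (∑ j, C j + 1) * Cd * (Y * c) ^ ε * Z ^ (1 / D) := by rw [h7]

end Pool.Agent.W54.QD
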